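import Pool.Agent.V11235.TruthTree

/-!
A directly acceptable formula that has no truth-tree with strengthened parity.
-/

namespace Pool.Agent.Results.MP_b8bcd1_lc.DirectStrengthened

open Pool.Agent.V11235.TruthTree

/-- The letter `s`. -/
abbrev s : Fm := .var 0
/-- The letter `y`. -/
abbrev y : Fm := .var 1
/-- The letter `b`. -/
abbrev b : Fm := .var 2
/-- The letter `d`. -/
abbrev d : Fm := .var 3
/-- The letter `v`. -/
abbrev v : Fm := .var 4
/-- `s → (¬b → d)`. -/
abbrev u : Fm := .imp s (.imp (.neg b) d)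
/-- `(s ∨ y) → (y ∨ b)`. -/
abbrev F : Fm := .imp (.or s y) (.or y b)
/-- `((s → (¬b → d)) ∨ v) → (v ∨ d)`. -/
abbrev G : Fm := .imp (.or u v) (.or v d)
/-- The formula `((s ∨ y) → (y ∨ b)) ∨ (((s → (¬b → d)) ∨ v) → (v ∨ d))`. -/
abbrev phi : Fm := .or F G

/-! ### `phi` is directly acceptable -/

/-- Checks that `T` is the trace of `{i, j}` on `B` and that parity holds. -/
def chk (B : Branch) (i j : ℕ) (T : List ℕ) : Bool :=
  T.contains i && T.contains j &&
  (T.all fun c => (match B[c]? with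
    | some n => n.inputs.all fun k => T.contains k
    | none => false)) &&
  (T.all fun t => t == i || t == j || T.any fun m => decide (t < m) && (match B[m]? with
    | some n => n.inputs.contains t
    | none => false)) &&
  ((List.range B.length).all fun c => (match B[c]? with
    | some n => (match n.partner with
      | some p => T.contains c == T.contains p
      | none => true)
    | none => true))

theorem crashes_of_chk {B : Branch} {i j : ℕ} {ζ : Fm} (T : List ℕ) (hi : Has B i ζ)
    (hj : Has B j (.neg ζ)) (h : chk B i j T = true) : Crashes B := by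
  simp only [chk, Bool.and_eq_true] at h
  obtain ⟨⟨⟨⟨h1, h2⟩, h3⟩, h4⟩, h5⟩ := h
  have hiT : i ∈ T := by simpa using h1
  have hjT : j ∈ T := by simpa using h2
  have h3' : ∀ c ∈ T, ∃ n : Node, B[c]? = some n ∧ ∀ k ∈ n.inputs, k ∈ T := by
    intro c hc
    have := List.all_eq_true.1 h3 c hc
    rcases hB : B[c]? with _ | n
    · rw [hB] at this
      simp at this
    · rw [hB] at this
      refine ⟨n, rfl, ?_⟩
      simpa using this
  have h4' : ∀ t ∈ T, t = i ∨ t = j ∨ ∃ m ∈ T, t < m ∧ ∃ n : Node, B[m]? = some n ∧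
      t ∈ n.inputs := by
    intro t ht
    have := List.all_eq_true.1 h4 t ht
    simp only [Bool.or_eq_true, beq_iff_eq, List.any_eq_true, Bool.and_eq_true,
      decide_eq_true_eq] at this
    rcases this with (this | this) | ⟨m, hm, htm, this⟩
    · exact Or.inl this
    · exact Or.inr (Or.inl this)
    · right; right
      refine ⟨m, hm, htm, ?_⟩
      rcases hB : B[m]? with _ | n
      · rw [hB] at this
        simp at this
      · rw [hB] at this
        refine ⟨n, rfl, ?_⟩
        simpa using this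
  have hT : ∀ c, Trace B {i, j} c → c ∈ T := by
    intro c hc
    induction hc with
    | base h =>
      rcases h with rfl | h
      · exact hiT
      · rw [Set.mem_singleton_iff] at h; subst h; exact hjT
    | @step a c n _ hn hin ih =>
      obtain ⟨n', hn', hk⟩ := h3' a ih
      rw [hn] at hn'
      cases hn'
      exact hk c hin
  have hT' : ∀ k, ∀ c ∈ T, B.length ≤ c + k → Trace B {i, j} c := by
    intro k
    induction k with
    | zero =>
      intro c hc hk
      obtain ⟨n, hn, -⟩ := h3' c hc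
      have := lt_of_get hn
      omega
    | succ k ih =>
      intro c hc hk
      rcases h4' c hc with rfl | rfl | ⟨m, hm, hcm, n, hn, hin⟩
      · exact .base (Or.inl rfl)
      · exact .base (Or.inr rfl)
      · exact .step (ih m hm (by omega)) hn hin
  have hTT : ∀ c, Trace B {i, j} c ↔ c ∈ T :=
    fun c => ⟨hT c, fun h => hT' B.length c h (by omega)⟩
  refine ⟨i, j, ζ, hi, hj, ?_⟩
  intro c n p hc hp
  rw [hTT, hTT]
  have := List.all_eq_true.1 h5 c (List.mem_range.2 (lt_of_get hc))
  rw [hc] at this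
  simp only [hp] at this
  have h6 : T.contains c = T.contains p := by simpa using this
  constructor
  · intro h
    have : T.contains c = true := by simpa using h
    rw [h6] at this
    simpa using this
  · intro h
    have : T.contains p = true := by simpa using h
    rw [← h6] at this
    simpa using this

theorem phi_mem : phi ∈ DirectlyAcceptable Crashes := by
  show Good Crashes ∅ (root phi)
  refine .nor (i := 0) (a := F) (b := G) ⟨_, rfl, rfl⟩ ?_
  refine .cc (i := 1) (a := .or s y) (b := .or y b) ⟨_, rfl, rfl⟩ ?_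
  refine .cc (i := 2) (a := .or u v) (b := .or v d) ⟨_, rfl, rfl⟩ ?_
  refine .nor (i := 4) (a := y) (b := b) ⟨_, rfl, rfl⟩ ?_
  refine .nor (i := 6) (a := v) (b := d) ⟨_, rfl, rfl⟩ ?_
  refine .disj (i := 3) (a := s) (b := y) ⟨_, rfl, rfl⟩ ?_ ?_
  · refine .disj (i := 5) (a := u) (b := v) ⟨_, rfl, rfl⟩ ?_ ?_
    · refine .mp (i := 11) (j := 12) (a := s) (b := .imp (.neg b) d) ⟨_, rfl, rfl⟩
        ⟨_, rfl, rfl⟩ ?_
      refine .mp (i := 8) (j := 13) (a := .neg b) (b := d) ⟨_, rfl, rfl⟩ ⟨_, rfl, rfl⟩ ?_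
      refine .leaf (crashes_of_chk (i := 14) (j := 10) (ζ := d)
        [0, 1, 2, 3, 4, 5, 6, 8, 10, 11, 12, 13, 14] ⟨_, rfl, rfl⟩ ⟨_, rfl, rfl⟩ ?_)
      decide
    · refine .leaf (crashes_of_chk (i := 12) (j := 9) (ζ := v) [0, 2, 5, 6, 9, 12]
        ⟨_, rfl, rfl⟩ ⟨_, rfl, rfl⟩ ?_)
      decide
  · refine .leaf (crashes_of_chk (i := 11) (j := 7) (ζ := y) [0, 1, 3, 4, 7, 11]
      ⟨_, rfl, rfl⟩ ⟨_, rfl, rfl⟩ ?_)
    decide

/-! ### No tree with strengthened parity -/

/-- All labels on `B` are in `L`, and inputs of nodes with label in `V` have label in `V`. -/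
structure Inv (L V : Fm → Prop) (B : Branch) : Prop where
  lab : ∀ (j : ℕ) (n : Node), B[j]? = some n → L n.label
  clo : ∀ (j : ℕ) (n : Node), B[j]? = some n → V n.label →
    ∀ i ∈ n.inputs, ∃ m : Node, B[i]? = some m ∧ V m.label

/-- The set `L` of labels is closed under the rules along one branch. -/
structure Closed (L V : Fm → Prop) : Prop where
  crash : ∀ ζ, L ζ → L (.neg ζ) → V ζ ∧ V (.neg ζ)
  conj : ∀ a b, ¬ L (.and a b)
  nor : ∀ a b, L (.neg (.or a b)) → L (.neg a) ∧ L (.neg b) ∧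
    (V (.neg a) → V (.neg (.or a b))) ∧ (V (.neg b) → V (.neg (.or a b)))
  dneg : ∀ a, ¬ L (.neg (.neg a))
  nand : ∀ a b, ¬ L (.neg (.and a b))
  disj : ∀ a b, L (.or a b) → (L a ∧ (V a → V (.or a b))) ∨ (L b ∧ (V b → V (.or a b)))
  mp : ∀ a b, L a → ¬ L (.imp a b)
  cc : ∀ a b, L (.neg (.imp a b)) → L a ∧ L (.neg b) ∧
    (V a → V (.neg (.imp a b))) ∧ (V (.neg b) → V (.neg (.imp a b)))

theorem Inv.snoc {L V : Fm → Prop} {B : Branch} (h : Inv L V B) (x : Node) (hx : L x.label)
    (hV : V x.label → ∀ i ∈ x.inputs, ∃ m : Node, B[i]? = some m ∧ V m.label) :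
    Inv L V (B ++ [x]) := by
  have up : ∀ (i : ℕ) (m : Node), B[i]? = some m → (B ++ [x])[i]? = some m := by
    intro i m hm
    rw [List.getElem?_append_left (lt_of_get hm)]
    exact hm
  refine ⟨?_, ?_⟩
  · intro j n hj
    rcases getElem?_snoc hj with hj | ⟨rfl, rfl⟩
    · exact h.lab j n hj
    · exact hx
  · intro j n hj hv i hi
    rcases getElem?_snoc hj with hj | ⟨rfl, rfl⟩
    · obtain ⟨m, hm, hm'⟩ := h.clo j n hj hv i hi
      exact ⟨m, up i m hm, hm'⟩
    · obtain ⟨m, hm, hm'⟩ := hV hv i hi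
      exact ⟨m, up i m hm, hm'⟩

theorem Inv.snoc2 {L V : Fm → Prop} {B : Branch} (h : Inv L V B) (x x' : Node) (hx : L x.label)
    (hV : V x.label → ∀ i ∈ x.inputs, ∃ m : Node, B[i]? = some m ∧ V m.label)
    (hx' : L x'.label)
    (hV' : V x'.label → ∀ i ∈ x'.inputs, ∃ m : Node, B[i]? = some m ∧ V m.label) :
    Inv L V (B ++ [x, x']) := by
  have e : B ++ [x, x'] = (B ++ [x]) ++ [x'] := by simp
  rw [e]
  refine (h.snoc x hx hV).snoc x' hx' ?_
  intro hv i hi
  obtain ⟨m, hm, hm'⟩ := hV' hv i hi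
  refine ⟨m, ?_, hm'⟩
  rw [List.getElem?_append_left (lt_of_get hm)]
  exact hm

/-- All critical nodes on `B` have labels in `V`. -/
def Crit (V : Fm → Prop) (B : Branch) : Prop :=
  ∀ (j : ℕ) (n : Node), B[j]? = some n → n.partner ≠ none → V n.label

theorem Crit.of_append {V : Fm → Prop} {B C : Branch} (h : Crit V (B ++ C)) : Crit V B := by
  intro j n hj hn
  refine h j n ?_ hn
  rw [List.getElem?_append_left (lt_of_get hj)]
  exact hj

theorem crit_of_good {L V : Fm → Prop} (hc : Closed L V) {B : Branch}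
    (hg : Good CrashesStrongly ∅ B) : Inv L V B → Crit V B := by
  induction hg with
  | @leaf B h =>
    intro hB
    obtain ⟨i, j, ζ, ⟨n, hn, hl⟩, ⟨n', hn', hl'⟩, hpar⟩ := h
    have h1 := hB.lab i n hn
    have h2 := hB.lab j n' hn'
    rw [hl] at h1
    rw [hl'] at h2
    have h3 := hc.crash ζ h1 h2
    have key : ∀ c, Trace B {i, j} c → ∃ m : Node, B[c]? = some m ∧ V m.label := by
      intro c hc
      induction hc with
      | base h =>
        rcases h with rfl | h
        · exact ⟨n, hn, by rw [hl]; exact h3.1⟩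
        · rw [Set.mem_singleton_iff] at h
          subst h
          exact ⟨n', hn', by rw [hl']; exact h3.2⟩
      | @step a c m _ hm hin ih =>
        obtain ⟨m', hm', hv⟩ := ih
        rw [hm] at hm'
        cases hm'
        exact hB.clo a m hm hv c hin
    intro c m hm hp
    obtain ⟨p, hp⟩ := Option.ne_none_iff_exists'.1 hp
    obtain ⟨m', hm', hv⟩ := key c (hpar c m p hm hp).1
    rw [hm] at hm'
    cases hm'
    exact hv
  | @conj B i a b h _ _ =>
    intro hB
    obtain ⟨n, hn, hl⟩ := h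
    have := hB.lab i n hn
    rw [hl] at this
    exact absurd this (hc.conj a b)
  | @nor B i a b h _ ih =>
    intro hB
    obtain ⟨n, hn, hl⟩ := h
    have := hB.lab i n hn
    rw [hl] at this
    obtain ⟨h1, h2, h3, h4⟩ := hc.nor a b this
    refine (ih (hB.snoc2 _ _ h1 ?_ h2 ?_)).of_append
    · intro hv k hk
      simp only [List.mem_singleton] at hk
      subst hk
      exact ⟨n, hn, by rw [hl]; exact h3 hv⟩
    · intro hv k hk
      simp only [List.mem_singleton] at hk
      subst hk
      exact ⟨n, hn, by rw [hl]; exact h4 hv⟩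
  | @dneg B i a h _ _ =>
    intro hB
    obtain ⟨n, hn, hl⟩ := h
    have := hB.lab i n hn
    rw [hl] at this
    exact absurd this (hc.dneg a)
  | @nand B i a b h _ _ _ _ =>
    intro hB
    obtain ⟨n, hn, hl⟩ := h
    have := hB.lab i n hn
    rw [hl] at this
    exact absurd this (hc.nand a b)
  | @disj B i a b h _ _ ih ih' =>
    intro hB
    obtain ⟨n, hn, hl⟩ := h
    have := hB.lab i n hn
    rw [hl] at this
    rcases hc.disj a b this with ⟨h1, h2⟩ | ⟨h1, h2⟩
    · refine (ih (hB.snoc _ h1 ?_)).of_append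
      intro hv k hk
      simp only [List.mem_singleton] at hk
      subst hk
      exact ⟨n, hn, by rw [hl]; exact h2 hv⟩
    · refine (ih' (hB.snoc _ h1 ?_)).of_append
      intro hv k hk
      simp only [List.mem_singleton] at hk
      subst hk
      exact ⟨n, hn, by rw [hl]; exact h2 hv⟩
  | @mp B i j a b h h' _ _ =>
    intro hB
    obtain ⟨n, hn, hl⟩ := h
    obtain ⟨n', hn', hl'⟩ := h'
    have h1 := hB.lab i n hn
    have h2 := hB.lab j n' hn'
    rw [hl] at h1
    rw [hl'] at h2
    exact absurd h2 (hc.mp a b h1)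
  | @cc B i a b h _ ih =>
    intro hB
    obtain ⟨n, hn, hl⟩ := h
    have := hB.lab i n hn
    rw [hl] at this
    obtain ⟨h1, h2, h3, h4⟩ := hc.cc a b this
    refine (ih (hB.snoc2 _ _ h1 ?_ h2 ?_)).of_append
    · intro hv k hk
      simp only [List.mem_singleton] at hk
      subst hk
      exact ⟨n, hn, by rw [hl]; exact h3 hv⟩
    · intro hv k hk
      simp only [List.mem_singleton] at hk
      subst hk
      exact ⟨n, hn, by rw [hl]; exact h4 hv⟩
  | recr _ hs _ _ => exact absurd hs (Set.notMem_empty _)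

/-- Labels on the branch that always chooses `s` and `v`. -/
def L₁ (a : Fm) : Prop :=
  a ∈ [Fm.neg phi, .neg F, .neg G, .or s y, .neg (.or y b), s, .neg y, .neg b,
    .or u v, .neg (.or v d), v, .neg v, .neg d]

/-- Those coming from `G`. -/
def V₁ (a : Fm) : Prop :=
  a ∈ [Fm.neg phi, .neg G, .or u v, .neg (.or v d), v, .neg v, .neg d]

/-- Labels on the branch that always chooses `y` and `u`. -/
def L₂ (a : Fm) : Prop :=
  a ∈ [Fm.neg phi, .neg F, .neg G, .or s y, .neg (.or y b), y, .neg y, .neg b,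
    .or u v, .neg (.or v d), u, .neg v, .neg d]

/-- Those coming from `F`. -/
def V₂ (a : Fm) : Prop :=
  a ∈ [Fm.neg phi, .neg F, .or s y, .neg (.or y b), y, .neg y, .neg b]

theorem closed₁ : Closed L₁ V₁ := by
  refine ⟨?_, ?_, ?_, ?_, ?_, ?_, ?_, ?_⟩
  · intro ζ h1 h2
    simp only [L₁, List.mem_cons, List.not_mem_nil, or_false] at h1 h2
    rcases h1 with rfl | rfl | rfl | rfl | rfl | rfl | rfl | rfl | rfl | rfl | rfl | rfl | rfl <;>
      simp [V₁] at h2 ⊢
  · intro a b h
    simp [L₁] at h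
  · intro a b h
    simp only [L₁, List.mem_cons, List.not_mem_nil, or_false, Fm.neg.injEq, Fm.or.injEq,
      reduceCtorEq, false_or] at h
    rcases h with ⟨rfl, rfl⟩ | ⟨rfl, rfl⟩ | ⟨rfl, rfl⟩ <;> simp [L₁, V₁]
  · intro a h
    simp [L₁] at h
  · intro a b h
    simp [L₁] at h
  · intro a b h
    simp only [L₁, List.mem_cons, List.not_mem_nil, or_false, Fm.or.injEq,
      reduceCtorEq, false_or] at h
    rcases h with ⟨rfl, rfl⟩ | ⟨rfl, rfl⟩ <;> simp [L₁, V₁]
  · intro a b _ h
    simp [L₁] at h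
  · intro a b h
    simp only [L₁, List.mem_cons, List.not_mem_nil, or_false, Fm.neg.injEq, Fm.imp.injEq,
      reduceCtorEq, false_or] at h
    rcases h with ⟨rfl, rfl⟩ | ⟨rfl, rfl⟩ <;> simp [L₁, V₁]

theorem closed₂ : Closed L₂ V₂ := by
  refine ⟨?_, ?_, ?_, ?_, ?_, ?_, ?_, ?_⟩
  · intro ζ h1 h2
    simp only [L₂, List.mem_cons, List.not_mem_nil, or_false] at h1 h2
    rcases h1 with rfl | rfl | rfl | rfl | rfl | rfl | rfl | rfl | rfl | rfl | rfl | rfl | rfl <;>
      simp [V₂] at h2 ⊢
  · intro a b h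
    simp [L₂] at h
  · intro a b h
    simp only [L₂, List.mem_cons, List.not_mem_nil, or_false, Fm.neg.injEq, Fm.or.injEq,
      reduceCtorEq, false_or] at h
    rcases h with ⟨rfl, rfl⟩ | ⟨rfl, rfl⟩ | ⟨rfl, rfl⟩ <;> simp [L₂, V₂]
  · intro a h
    simp [L₂] at h
  · intro a b h
    simp [L₂] at h
  · intro a b h
    simp only [L₂, List.mem_cons, List.not_mem_nil, or_false, Fm.or.injEq,
      reduceCtorEq, false_or] at h
    rcases h with ⟨rfl, rfl⟩ | ⟨rfl, rfl⟩ <;> simp [L₂, V₂]
  · intro a b h' h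
    simp only [L₂, List.mem_cons, List.not_mem_nil, or_false, Fm.imp.injEq,
      reduceCtorEq, false_or] at h
    obtain ⟨rfl, rfl⟩ := h
    simp [L₂] at h'
  · intro a b h
    simp only [L₂, List.mem_cons, List.not_mem_nil, or_false, Fm.neg.injEq, Fm.imp.injEq,
      reduceCtorEq, false_or] at h
    rcases h with ⟨rfl, rfl⟩ | ⟨rfl, rfl⟩ <;> simp [L₂, V₂]

/-- Labels on the trunk before any fork or counter-case step. -/
def L₀ (a : Fm) : Prop := a ∈ [Fm.neg phi, .neg F, .neg G]

theorem trunk {B : Branch} (hg : Good CrashesStrongly ∅ B) :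
    (∀ (j : ℕ) (n : Node), B[j]? = some n → L₀ n.label) → Inv L₁ V₁ B → Inv L₂ V₂ B → False := by
  induction hg with
  | @leaf B h =>
    intro h0 _ _
    obtain ⟨i, j, ζ, ⟨n, hn, hl⟩, ⟨n', hn', hl'⟩, hpar⟩ := h
    have h1 := h0 i n hn
    have h2 := h0 j n' hn'
    rw [hl] at h1
    rw [hl'] at h2
    simp only [L₀, List.mem_cons, List.not_mem_nil, or_false] at h1
    rcases h1 with rfl | rfl | rfl <;> simp [L₀] at h2
  | @conj B i a b h _ _ =>
    intro h0 _ _
    obtain ⟨n, hn, hl⟩ := h
    have := h0 i n hn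
    rw [hl] at this
    simp [L₀] at this
  | @nor B i a b h _ ih =>
    intro h0 hB₁ hB₂
    obtain ⟨n, hn, hl⟩ := h
    have := h0 i n hn
    rw [hl] at this
    simp only [L₀, List.mem_cons, List.not_mem_nil, or_false, Fm.neg.injEq, Fm.or.injEq,
      reduceCtorEq] at this
    obtain ⟨rfl, rfl⟩ := this
    refine ih ?_ (hB₁.snoc2 _ _ (by simp [L₁]) ?_ (by simp [L₁]) ?_)
      (hB₂.snoc2 _ _ (by simp [L₂]) ?_ (by simp [L₂]) ?_)
    · intro j m hm
      rcases getElem?_snoc2 hm with hm | ⟨rfl, rfl⟩ | ⟨rfl, rfl⟩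
      · exact h0 j m hm
      · simp [L₀]
      · simp [L₀]
    all_goals
      intro hv k hk
      simp only [List.mem_singleton] at hk
      subst hk
      refine ⟨n, hn, ?_⟩
      rw [hl]
      simp [V₁, V₂]
  | @dneg B i a h _ _ =>
    intro h0 _ _
    obtain ⟨n, hn, hl⟩ := h
    have := h0 i n hn
    rw [hl] at this
    simp [L₀] at this
  | @nand B i a b h _ _ _ _ =>
    intro h0 _ _
    obtain ⟨n, hn, hl⟩ := h
    have := h0 i n hn
    rw [hl] at this
    simp [L₀] at this
  | @disj B i a b h _ _ _ _ =>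
    intro h0 _ _
    obtain ⟨n, hn, hl⟩ := h
    have := h0 i n hn
    rw [hl] at this
    simp [L₀] at this
  | @mp B i j a b _ h _ _ =>
    intro h0 _ _
    obtain ⟨n, hn, hl⟩ := h
    have := h0 j n hn
    rw [hl] at this
    simp [L₀] at this
  | @cc B i a b h hg' _ =>
    intro h0 hB₁ hB₂
    obtain ⟨n, hn, hl⟩ := h
    have := h0 i n hn
    rw [hl] at this
    simp only [L₀, List.mem_cons, List.not_mem_nil, or_false, Fm.neg.injEq, Fm.imp.injEq,
      reduceCtorEq, false_or] at this
    rcases this with ⟨rfl, rfl⟩ | ⟨rfl, rfl⟩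
    · have hc := crit_of_good closed₁ hg' (hB₁.snoc2 _ _ (by simp [L₁]) (by simp [V₁])
        (by simp [L₁]) (by simp [V₁]))
      have := hc B.length ⟨.or s y, [i], some (B.length + 1)⟩ (by simp) (by simp)
      simp [V₁] at this
    · have hc := crit_of_good closed₂ hg' (hB₂.snoc2 _ _ (by simp [L₂]) (by simp [V₂])
        (by simp [L₂]) (by simp [V₂]))
      have := hc B.length ⟨.or u v, [i], some (B.length + 1)⟩ (by simp) (by simp)
      simp [V₂] at this
  | recr _ hs _ _ => exact absurd hs (Set.notMem_empty _)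

theorem phi_not_mem : phi ∉ DirectlyAcceptable CrashesStrongly := by
  intro h
  have key : ∀ (i : ℕ) (n : Node), (root phi)[i]? = some n → n = ⟨.neg phi, [], none⟩ := by
    intro i n hn
    rcases i with _ | i
    · simp [root] at hn
      exact hn.symm
    · simp [root] at hn
  refine trunk (B := root phi) h ?_ ⟨?_, ?_⟩ ⟨?_, ?_⟩
  · intro j n hn
    rw [key j n hn]
    simp [L₀]
  · intro j n hn
    rw [key j n hn]
    simp [L₁]
  · intro j n hn
    rw [key j n hn]
    simp
  · intro j n hn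
    rw [key j n hn]
    simp [L₂]
  · intro j n hn
    rw [key j n hn]
    simp

/-- `DA^s ≠ DA`: the formula `phi` has a truth-tree with parity but none with strengthened
parity. -/
theorem result : phi ∈ DirectlyAcceptable Crashes ∧ phi ∉ DirectlyAcceptable CrashesStrongly :=
  ⟨phi_mem, phi_not_mem⟩

end Pool.Agent.Results.MP_b8bcd1_lc.DirectStrengthened
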